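import Pool.Agent.W47.JL.Single

/-!
# Common recurrences of several words of digits
-/

set_option autoImplicit false

namespace Pool.Agent.Y928.SW

open Finset Polynomial
open Pool.Agent.H831R3.LC (W dig dig_abs)
open Pool.Agent.W47.JL

/-- a common recurrence of words of digits gives simultaneous rational approximations -/
theorem rec_meas (J : ℕ) (hJ : 1 ≤ J) (x : Fin J → ℝ) (b : ℕ) (hb : 2 ≤ b) (L m : ℕ)
    (E Λ : ℝ) (hE : 0 ≤ E) (hΛ : Λ ≤ (J : ℝ) / (J + 1) * L * Real.log b)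
    (hM : ∀ q : ℕ, 1 ≤ q → Real.log q < Λ → ∀ p : Fin J → ℤ,
      ∃ j, (q : ℝ) ^ (-(1 / J : ℝ)) * Real.exp (-E) ≤ |(q : ℝ) * x j - p j|)
    (s : Fin J → ℕ → ℤ) (hdig : ∀ j, ∀ i < L, s j i = dig (x j) b (i + 1))
    (c : ℕ → ℚ)
    (hc : ∀ j i, i + m < L → (s j (i + m) : ℚ) = ∑ l ∈ range m, c l * (s j (i + l) : ℚ)) :
    Λ ≤ (m + 15 * err m + 1) * Real.log b + E := by
  obtain ⟨k0, K, hk0, hK, hpar⟩ := params m
  have hJR : (1 : ℝ) ≤ J := by exact_mod_cast hJ
  have hbR : (2 : ℝ) ≤ b := by exact_mod_cast hb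
  have hb0 : (0 : ℝ) < b := by linarith
  have hlb0 : 0 < Real.log b := Real.log_pos (by linarith)
  have hpar1 : M1 b m k0 K ≤ m + 15 * err m := hpar b hbR
  have hM1 := M1_ge b m k0 K hb
  have hm0 : (0 : ℝ) ≤ m := Nat.cast_nonneg m
  have hk00 : (0 : ℝ) ≤ k0 := Nat.cast_nonneg k0
  have hL0 : (0 : ℝ) ≤ L := Nat.cast_nonneg L
  have hJ1 : (J : ℝ) / (J + 1) ≤ 1 := by rw [div_le_one (by linarith)]; linarith
  have hfinal : Λ ≤ (M1 b m k0 K + 1) * Real.log b + E → Λ ≤ (m + 15 * err m + 1) * Real.log b + E := by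
    intro h
    have := mul_le_mul_of_nonneg_right hpar1 hlb0.le
    linarith
  apply hfinal
  have htriv : (L : ℝ) ≤ M1 b m k0 K + 1 → Λ ≤ (M1 b m k0 K + 1) * Real.log b + E := by
    intro h
    have h1 : (J : ℝ) / (J + 1) * L ≤ 1 * L := mul_le_mul_of_nonneg_right hJ1 hL0
    have h2 : (J : ℝ) / (J + 1) * L * Real.log b ≤ (M1 b m k0 K + 1) * Real.log b :=
      mul_le_mul_of_nonneg_right (by linarith) hlb0.le
    linarith
  by_cases hL : m + k0 ≤ L
  swap
  · apply htriv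
    have : (L : ℝ) ≤ m + k0 := by exact_mod_cast (by omega : L ≤ m + k0)
    linarith
  by_cases hbig : (m + k0 + 1) * ((m + 1 + k0) * b) ^ K * b < b ^ (L - (m + k0))
  swap
  · apply htriv
    push Not at hbig
    have h1 : ((b : ℝ) ^ (L - (m + k0))) ≤
        ((m : ℝ) + k0 + 1) * (((m : ℝ) + 1 + k0) * b) ^ K * b := by exact_mod_cast hbig
    have h2 := Real.log_le_log (by positivity) h1
    rw [Real.log_pow, Real.log_mul (by positivity) (by positivity)] at h2
    have h3 : ((L - (m + k0) : ℕ) : ℝ) = L - (m + k0) := by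
      rw [Nat.cast_sub hL]; push_cast; ring
    rw [h3] at h2
    have h4 : (L : ℝ) - (m + k0) ≤
        Real.log (((m : ℝ) + k0 + 1) * (((m : ℝ) + 1 + k0) * b) ^ K) / Real.log b + 1 := by
      rw [← sub_le_iff_le_add, le_div_iff₀ hlb0]
      linarith
    unfold M1
    linarith
  -- truncate
  obtain ⟨a, ha⟩ : ∃ a : Fin J → ℕ → ℤ, a = fun j i => if i < L then s j i else 0 := ⟨_, rfl⟩
  have ha1 : ∀ j i, i < L → a j i = s j i := by
    intro j i hi
    rw [ha]; simp [hi]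
  have ha2 : ∀ j i, |a j i| ≤ b := by
    intro j i
    by_cases hi : i < L
    · rw [ha1 j i hi, hdig j i hi]; exact dig_abs _ b (by omega) _
    · rw [ha]; simp [hi]
  obtain ⟨t, ht0, htd, htH, htr⟩ := Pool.Agent.W928.JL.small J a b (by omega)
    ha2 m k0 (L - (m + k0)) L K hk0 hK
    (by omega) c (fun j i hi => by
      rw [ha1 _ _ hi, hc j i hi]
      refine Finset.sum_congr rfl fun l hl => ?_
      rw [mem_range] at hl
      rw [ha1 _ _ (by omega)])
  obtain ⟨t', htd', htH', htr', ht0'⟩ := Pool.Agent.W639.JL.desc J a b b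
    (((m + 1 + k0) * b) ^ K) (m + k0) (L - (m + k0)) hb ha2 hbig t htd ht0 htH htr
  have happ : ∀ j, ∃ p : ℤ, |((t'.eval (b : ℤ) : ℤ) : ℝ) * (b : ℝ) ^ 0 * x j - p| *
      (b : ℝ) ^ (L - (m + k0) - 0) ≤ ((m + k0 : ℕ) + 1) * (((m + 1 + k0) * b) ^ K : ℕ) := fun j =>
    Pool.Agent.W45.JL.approx (x j) b (((m + 1 + k0) * b) ^ K) (L - (m + k0)) (m + k0) 0 L
      (a j) t' (by omega) htH' htd' (htr' j) (fun i _ hi => by rw [ha1 j i hi, hdig j i hi])
      (by omega) (by omega)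
  choose p hp using happ
  obtain ⟨q, hq⟩ : ∃ q : ℕ, q = (t'.eval (b : ℤ)).natAbs := ⟨_, rfl⟩
  have hq1 : 1 ≤ q := by rw [hq]; exact Int.natAbs_pos.2 ht0'
  have hqR : (q : ℝ) = |((t'.eval (b : ℤ) : ℤ) : ℝ)| := by
    rw [hq, Nat.cast_natAbs, Int.cast_abs]
  have hq1R : (1 : ℝ) ≤ q := by exact_mod_cast hq1
  obtain ⟨X, hX⟩ : ∃ X : ℝ, X = ((m : ℝ) + k0 + 1) * (((m : ℝ) + 1 + k0) * b) ^ K := ⟨_, rfl⟩
  have hX0 : 0 < X := by rw [hX]; positivity
  have hXe : (((m + k0 : ℕ) : ℝ) + 1) * (((m + 1 + k0) * b) ^ K : ℕ) = X := by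
    rw [hX]; push_cast; ring
  have hqle : (q : ℝ) ≤ X * (b : ℝ) ^ (m + k0) := by
    have h1 := eval_le t' (((m + 1 + k0) * b) ^ K) (m + k0) b (by omega) htH' htd'
    rw [hqR, ← hXe]
    exact_mod_cast h1
  have hXM : M1 b m k0 K * Real.log b = (m + k0) * Real.log b + Real.log X := by
    rw [M1, ← hX]
    field_simp
  have hlogq : Real.log q ≤ M1 b m k0 K * Real.log b := by
    have h1 := Real.log_le_log (by linarith) hqle
    rw [Real.log_mul hX0.ne' (by positivity), Real.log_pow] at h1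
    push_cast at h1
    rw [hXM]
    linarith
  rcases le_or_gt Λ (Real.log q) with hqΛ | hqΛ
  · nlinarith
  -- signs
  have hqx : ∀ j, ∃ p' : ℤ, |(q : ℝ) * x j - p'| =
      |((t'.eval (b : ℤ) : ℤ) : ℝ) * (b : ℝ) ^ 0 * x j - p j| := by
    intro j
    rcases abs_cases ((t'.eval (b : ℤ) : ℤ) : ℝ) with ⟨h1, _⟩ | ⟨h1, _⟩
    · exact ⟨p j, by rw [hqR, h1, pow_zero, mul_one]⟩
    · refine ⟨-p j, ?_⟩
      rw [hqR, h1, ← abs_neg]
      congr 1
      push_cast
      ring
  choose p' hp' using hqx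
  obtain ⟨j, hj⟩ := hM q hq1 hqΛ p'
  rw [hp' j] at hj
  have hpj := hp j
  rw [hXe, Nat.sub_zero] at hpj
  obtain ⟨w, hw⟩ : ∃ w : ℕ, L = m + k0 + w := ⟨L - (m + k0), by omega⟩
  rw [show L - (m + k0) = w by omega] at hpj
  have h2 : (q : ℝ) ^ (-(1 / J : ℝ)) * Real.exp (-E) * (b : ℝ) ^ w ≤ X :=
    (mul_le_mul_of_nonneg_right hj (by positivity)).trans hpj
  have h3 := Real.log_le_log (by positivity) h2
  rw [Real.log_mul (by positivity) (by positivity), Real.log_mul (by positivity) (by positivity),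
    Real.log_rpow (by positivity), Real.log_exp, Real.log_pow] at h3
  have h9 : (L : ℝ) = m + k0 + w := by rw [hw]; push_cast; ring
  have h4 : (L : ℝ) * Real.log b ≤ (1 + 1 / J) * (M1 b m k0 K * Real.log b) + E := by
    have h5 : 1 / (J : ℝ) * Real.log q ≤ 1 / J * (M1 b m k0 K * Real.log b) :=
      mul_le_mul_of_nonneg_left hlogq (by positivity)
    rw [h9]
    nlinarith
  have h6 : (J : ℝ) / (J + 1) * L * Real.log b ≤ M1 b m k0 K * Real.log b + E := by
    have e1 : (J : ℝ) / (J + 1) * ((1 + 1 / J) * (M1 b m k0 K * Real.log b)) =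
        M1 b m k0 K * Real.log b := by
      field_simp
    have h7 := mul_le_mul_of_nonneg_left h4 (show 0 ≤ (J : ℝ) / (J + 1) by positivity)
    rw [mul_add, e1] at h7
    have h8 : (J : ℝ) / (J + 1) * E ≤ 1 * E := mul_le_mul_of_nonneg_right hJ1 hE
    nlinarith
  nlinarith

/-- the same for arbitrary relations -/
theorem rel_meas (J : ℕ) (hJ : 1 ≤ J) (x : Fin J → ℝ) (b : ℕ) (hb : 2 ≤ b) (L m : ℕ)
    (E Λ : ℝ) (hE : 0 ≤ E) (hΛ : Λ ≤ (J : ℝ) / (J + 1) * L * Real.log b)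
    (hM : ∀ q : ℕ, 1 ≤ q → Real.log q < Λ → ∀ p : Fin J → ℤ,
      ∃ j, (q : ℝ) ^ (-(1 / J : ℝ)) * Real.exp (-E) ≤ |(q : ℝ) * x j - p j|)
    (s : Fin J → ℕ → ℤ) (hdig : ∀ j, ∀ i < L, s j i = dig (x j) b (i + 1))
    (c : ℕ → ℚ) (hc0 : ∃ l ≤ m, c l ≠ 0)
    (hc : ∀ j i, i + m < L → ∑ l ∈ range (m + 1), c l * (s j (i + l) : ℚ) = 0) :
    ∃ m' ≤ m, Λ ≤ (m + 15 * err m' + 1) * Real.log b + E := by
  have hbR : (2 : ℝ) ≤ b := by exact_mod_cast hb
  have hlb0 : 0 < Real.log b := Real.log_pos (by linarith)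
  have hJR : (1 : ℝ) ≤ J := by exact_mod_cast hJ
  have hJ1 : (J : ℝ) / (J + 1) ≤ 1 := by rw [div_le_one (by linarith)]; linarith
  have hJ0 : 0 ≤ (J : ℝ) / (J + 1) := by positivity
  rcases le_or_gt L m with hLm | hLm
  · refine ⟨m, le_rfl, ?_⟩
    have h1 : (L : ℝ) ≤ m := by exact_mod_cast hLm
    have h2 : (J : ℝ) / (J + 1) * L * Real.log b ≤ 1 * L * Real.log b := by
      apply mul_le_mul_of_nonneg_right _ hlb0.le
      exact mul_le_mul_of_nonneg_right hJ1 (Nat.cast_nonneg _)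
    have h3 := err_ge m
    have h4 : (L : ℝ) * Real.log b ≤ (m + 15 * err m + 1) * Real.log b :=
      mul_le_mul_of_nonneg_right (by linarith) hlb0.le
    linarith
  obtain ⟨j0, hj0, hcj0⟩ := hc0
  have hex : ∃ m' ≤ m, c m' ≠ 0 ∧ ∀ j ≤ m, c j ≠ 0 → j ≤ m' := by
    obtain ⟨m', h1, h2⟩ := Finset.exists_max_image ((range (m + 1)).filter (fun j => c j ≠ 0)) id
      ⟨j0, by rw [mem_filter, mem_range]; exact ⟨by omega, hcj0⟩⟩
    rw [mem_filter, mem_range] at h1
    exact ⟨m', by omega, h1.2, fun j hj hcj => h2 j (by rw [mem_filter, mem_range]; exact ⟨by omega, hcj⟩)⟩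
  obtain ⟨m', hm', hcm', hmax⟩ := hex
  refine ⟨m', hm', ?_⟩
  obtain ⟨L', hL'⟩ : ∃ L', L' = L - (m - m') := ⟨_, rfl⟩
  have hLL' : (L : ℝ) = L' + (m - m') := by
    have : L = L' + (m - m') := by omega
    rw [this]
    push_cast
    rw [Nat.cast_sub hm']
  have hmm : (m' : ℝ) ≤ m := by exact_mod_cast hm'
  have hrec : ∀ j i, i + m' < L' → (s j (i + m') : ℚ) =
      ∑ l ∈ range m', (-(c l / c m')) * (s j (i + l) : ℚ) := by
    intro j i hi
    have h1 := hc j i (by omega)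
    have h2 : ∑ l ∈ range (m + 1), c l * (s j (i + l) : ℚ) =
        ∑ l ∈ range (m' + 1), c l * (s j (i + l) : ℚ) := by
      symm
      apply Finset.sum_subset (by intro x hx; rw [mem_range] at hx ⊢; omega)
      intro l hl1 hl2
      rw [mem_range] at hl1 hl2
      have : c l = 0 := by
        by_contra h
        have := hmax l (by omega) h
        omega
      rw [this, zero_mul]
    rw [h2, sum_range_succ] at h1
    have h3 : ∑ l ∈ range m', (-(c l / c m')) * (s j (i + l) : ℚ) =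
        -(∑ l ∈ range m', c l * (s j (i + l) : ℚ)) / c m' := by
      rw [neg_div, Finset.sum_div, ← Finset.sum_neg_distrib]
      refine sum_congr rfl fun l _ => ?_
      field_simp
    rw [h3, eq_div_iff hcm']
    linarith
  have hL'L : L' ≤ L := by omega
  obtain ⟨d, hd⟩ : ∃ d : ℝ, d = (J : ℝ) / (J + 1) * (m - m') * Real.log b := ⟨_, rfl⟩
  have hd0 : 0 ≤ d := by
    rw [hd]
    exact mul_nonneg (mul_nonneg hJ0 (by linarith)) hlb0.le
  have h1 := rec_meas J hJ x b hb L' m' E (Λ - d) hE (by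
      rw [hd]
      rw [hLL'] at hΛ
      nlinarith)
    (fun q hq hqΛ p => hM q hq (by linarith) p) s (fun j i hi => hdig j i (by omega))
    (fun l => -(c l / c m')) hrec
  have h2 : d ≤ ((m : ℝ) - m') * Real.log b := by
    rw [hd]
    apply mul_le_mul_of_nonneg_right _ hlb0.le
    calc (J : ℝ) / (J + 1) * (m - m') ≤ 1 * (m - m') :=
          mul_le_mul_of_nonneg_right hJ1 (by linarith)
      _ = _ := one_mul _
  linarith

/-- a subword without errors -/
lemma free_sub (L k : ℕ) (E : Finset ℕ) (hE : E.card ≤ k) :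
    ∃ u v : ℕ, u ≤ v ∧ v ≤ L ∧ (∀ i, u ≤ i → i < v → i ∉ E) ∧ L ≤ (k + 1) * (v - u) + k := by
  classical
  induction k generalizing L E with
  | zero =>
    have hE0 : E = ∅ := Finset.card_eq_zero.1 (by omega)
    exact ⟨0, L, by omega, le_rfl, fun i _ _ => by simp [hE0], by omega⟩
  | succ k ih =>
    by_cases hh : ∃ e ∈ E, e < L
    · obtain ⟨e0, he0, he1⟩ := hh
      obtain ⟨e, he, hmax⟩ := Finset.exists_max_image (E.filter (fun i => i < L)) id
        ⟨e0, by rw [mem_filter]; exact ⟨he0, he1⟩⟩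
      rw [mem_filter] at he
      have hfree : ∀ i, e + 1 ≤ i → i < L → i ∉ E := by
        intro i h1 h2 h3
        have := hmax i (by rw [mem_filter]; exact ⟨h3, h2⟩)
        simp only [id] at this
        omega
      obtain ⟨u, v, huv, hvL, hf, hlen⟩ := ih e (E.erase e) (by
        rw [Finset.card_erase_of_mem he.1]; omega)
      by_cases hc : v - u ≤ L - (e + 1)
      · refine ⟨e + 1, L, by omega, le_rfl, hfree, ?_⟩
        have h1 : (k + 1) * (v - u) ≤ (k + 1) * (L - (e + 1)) := Nat.mul_le_mul_left _ hc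
        have h2 : (k + 1 + 1) * (L - (e + 1)) = (k + 1) * (L - (e + 1)) + (L - (e + 1)) := by ring
        omega
      · refine ⟨u, v, huv, by omega, ?_, ?_⟩
        · intro i h1 h2 h3
          exact hf i h1 h2 (by rw [Finset.mem_erase]; exact ⟨by omega, h3⟩)
        · have h2 : (k + 1 + 1) * (v - u) = (k + 1) * (v - u) + (v - u) := by ring
          omega
    · push Not at hh
      refine ⟨0, L, by omega, le_rfl, fun i _ hi h => by have := hh i h; omega, ?_⟩
      have h2 : (k + 1 + 1) * (L - 0) = (k + 1) * L + L := by rw [Nat.sub_zero]; ring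
      omega

/-- existence of common relations -/
lemma exists_rel (J L m : ℕ) (s : Fin J → ℕ → ℚ) (h : J * (L - m) < m + 1) :
    ∃ c : ℕ → ℚ, (∃ l ≤ m, c l ≠ 0) ∧
      ∀ j i, i + m < L → ∑ l ∈ range (m + 1), c l * s j (i + l) = 0 := by
  classical
  set f : (Fin (m + 1) → ℚ) →ₗ[ℚ] (Fin J × Fin (L - m) → ℚ) :=
    { toFun := fun c p => ∑ l : Fin (m + 1), c l * s p.1 ((p.2 : ℕ) + l)
      map_add' := by
        intro c c'
        funext p
        simp only [Pi.add_apply, add_mul, Finset.sum_add_distrib]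
      map_smul' := by
        intro r c
        funext p
        simp only [Pi.smul_apply, smul_eq_mul, RingHom.id_apply, Finset.mul_sum, mul_assoc] } with hf
  have hker : LinearMap.ker f ≠ ⊥ := by
    apply LinearMap.ker_ne_bot_of_finrank_lt
    simp only [Module.finrank_fintype_fun_eq_card, Fintype.card_prod, Fintype.card_fin]
    exact h
  obtain ⟨c, hc, hc0⟩ := (Submodule.ne_bot_iff _).1 hker
  refine ⟨fun l => if hl : l < m + 1 then c ⟨l, hl⟩ else 0, ?_, ?_⟩
  · by_contra hcon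
    push Not at hcon
    apply hc0
    funext l
    have := hcon l (by omega)
    simpa [l.2] using this
  · intro j i hi
    have h1 := congrFun (LinearMap.mem_ker.1 hc) (j, ⟨i, by omega⟩)
    rw [hf] at h1
    simp only [LinearMap.coe_mk, AddHom.coe_mk, Pi.zero_apply] at h1
    rw [Finset.sum_range, ← h1]
    refine Finset.sum_congr rfl fun l _ => ?_
    simp [l.2]

end Pool.Agent.Y928.SW
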