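import Pool.Agent.Y928.SW.Meas
import Pool.Agent.Y928.SW.Words

/-!
# Common relations of windows of digits of several numbers `A0 a` with `S`-units `a`
-/

set_option autoImplicit false

namespace Pool.Agent.Y928.SW

open Finset Polynomial
open Pool.Agent.H831R3.LC (W dig dig_abs)
open Pool.Agent.W47.JL

lemma dig_win (q N t L i : ℕ) (hq : 2 ≤ q) (hi : i < L) :
    dig ((N : ℝ) / ((q ^ (t + L) : ℕ) : ℝ)) q (i + 1) =
      ((N / q ^ (t + (L - 1 - i)) % q : ℕ) : ℤ) := by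
  unfold dig
  have hq0 : (0 : ℝ) < q := by exact_mod_cast (by omega : 0 < q)
  have h1 : (N : ℝ) / ((q ^ (t + L) : ℕ) : ℝ) * (q : ℝ) ^ (i + 1) =
      (N : ℝ) / ((q ^ (t + (L - 1 - i)) : ℕ) : ℝ) := by
    have e : t + L = (t + (L - 1 - i)) + (i + 1) := by omega
    rw [e, pow_add]
    push_cast
    field_simp
  rw [h1, ← Int.natCast_floor_eq_floor (by positivity), Nat.floor_div_eq_div]
  push_cast
  rfl

/-- the error term is small -/
theorem err_small (η : ℝ) (hη : 0 < η) : ∃ C : ℝ, 0 ≤ C ∧ ∀ m : ℕ, err m ≤ η * m + C := by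
  refine ⟨|(3 * η + (-1 - 2 * Real.log η) / η) / 2|, abs_nonneg _, fun m => ?_⟩
  have hm0 : (0 : ℝ) ≤ m := Nat.cast_nonneg m
  have hl0 : 0 ≤ Real.log ((m : ℝ) + 2) := Real.log_nonneg (by linarith)
  have h1 : err m ≤ (η * (m + 1) + Real.log ((m : ℝ) + 2) / η) / 2 := by
    unfold err
    apply Real.sqrt_le_iff.2
    constructor
    · positivity
    · have h2 : 0 ≤ (η * (m + 1) - Real.log ((m : ℝ) + 2) / η) ^ 2 := sq_nonneg _
      have h3 : (η * (m + 1)) * (Real.log ((m : ℝ) + 2) / η) = ((m : ℝ) + 1) * Real.log ((m : ℝ) + 2) := by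
        field_simp
      nlinarith
  have h2 : Real.log ((m : ℝ) + 2) ≤ η ^ 2 * (m + 2) - 1 - 2 * Real.log η := by
    have h3 := Real.log_le_sub_one_of_pos (show 0 < η ^ 2 * ((m : ℝ) + 2) by positivity)
    rw [Real.log_mul (by positivity) (by positivity), Real.log_pow] at h3
    push_cast at h3
    linarith
  have h3 : Real.log ((m : ℝ) + 2) / η ≤ η * (m + 2) + (-1 - 2 * Real.log η) / η := by
    rw [div_le_iff₀ hη, add_mul, div_mul_cancel₀ _ hη.ne']
    linarith
  have h4 := le_abs_self ((3 * η + (-1 - 2 * Real.log η) / η) / 2)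
  linarith

/-- common relations of windows of digits -/
theorem windows (S : Finset ℕ) (hS : ∀ ℓ ∈ S, ℓ.Prime) (q : ℕ) (hq : 2 ≤ q)
    (hqS : ∀ ℓ : ℕ, ℓ.Prime → ℓ ∣ q → ℓ ∈ S) (A0 : ℕ) (hA0 : 1 ≤ A0) (T : ℕ) (hT : 1 ≤ T)
    (K ε : ℝ) (hK : 0 < K) (hε : 0 < ε) :
    ∃ L0 : ℕ, ∀ L, L0 ≤ L → ∀ (a t : Fin T → ℕ),
      (∀ l, 1 ≤ a l) → (∀ l, ∀ ℓ : ℕ, ℓ.Prime → ℓ ∣ a l → ℓ ∈ S) →
      (∀ l, Real.log (a l) ≤ K * L) → (∀ l, q ^ (t l + L) ≤ q * (A0 * a l)) →
      (∀ l l', l ≠ l' → ((T : ℝ) - 1) / (T + 1) * L * Real.log q ≤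
        |(Real.log (a l) - t l * Real.log q) - (Real.log (a l') - t l' * Real.log q)|) →
      ∀ Λ : ℝ, Λ ≤ (T : ℝ) / (T + 1) * L * Real.log q →
      (∀ Q : ℕ, 1 ≤ Q → Real.log Q < Λ → ∀ l, ¬ q ^ (t l + L) ∣ Q * A0 * a l) →
      ∀ (m : ℕ) (c : ℕ → ℚ), (∃ j ≤ m, c j ≠ 0) →
      (∀ l i, i + m < L → ∑ j ∈ range (m + 1),
        c j * ((A0 * a l / q ^ (t l + (L - 1 - (i + j))) % q : ℕ) : ℚ) = 0) →
      Λ ≤ (m + ε * L) * Real.log q := by
  have hqR : (2 : ℝ) ≤ q := by exact_mod_cast hq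
  have hlq : 0 < Real.log q := Real.log_pos (by linarith)
  have hTR : (1 : ℝ) ≤ T := by exact_mod_cast hT
  have hT1 : (T : ℝ) / (T + 1) ≤ 1 := by rw [div_le_one (by linarith)]; linarith
  obtain ⟨ε1, hε1⟩ : ∃ ε1 : ℝ, ε1 = ε / 4 * Real.log q := ⟨_, rfl⟩
  have hε10 : 0 < ε1 := by rw [hε1]; positivity
  obtain ⟨n0, hn0⟩ := meas S hS A0 (q * A0) (K + 2 * Real.log q + 1) ε1 (by positivity) hε10 T hT
  obtain ⟨C, hC0, herr⟩ := err_small (ε / 60) (by positivity)
  have hA0R : (1 : ℝ) ≤ A0 := by exact_mod_cast hA0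
  refine ⟨max n0 (max (⌈Real.log A0⌉₊ + 1) ⌈(15 * C + 1) * 4 / ε⌉₊), ?_⟩
  intro L hL a t ha haS haK hwin hsep Λ hΛ hdvd m c hc0 hc
  have hL1 : n0 ≤ L := le_trans (le_max_left _ _) hL
  have hL2 : Real.log A0 ≤ L := by
    have h1 : ⌈Real.log A0⌉₊ + 1 ≤ L :=
      le_trans (le_trans (le_max_left _ _) (le_max_right _ _)) hL
    have h2 := Nat.le_ceil (Real.log A0)
    have h3 : (⌈Real.log A0⌉₊ : ℝ) ≤ L := by exact_mod_cast (by omega : ⌈Real.log A0⌉₊ ≤ L)
    linarith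
  have hL1' : (1 : ℝ) ≤ L := by
    have h1 : ⌈Real.log A0⌉₊ + 1 ≤ L :=
      le_trans (le_trans (le_max_left _ _) (le_max_right _ _)) hL
    exact_mod_cast (by omega : 1 ≤ L)
  have hL3 : (15 * C + 1) ≤ ε / 4 * L := by
    have h1 : ⌈(15 * C + 1) * 4 / ε⌉₊ ≤ L :=
      le_trans (le_trans (le_max_right _ _) (le_max_right _ _)) hL
    have h2 := Nat.le_ceil ((15 * C + 1) * 4 / ε)
    have h3 : (⌈(15 * C + 1) * 4 / ε⌉₊ : ℝ) ≤ L := by exact_mod_cast h1
    have h4 : (15 * C + 1) * 4 / ε ≤ L := by linarith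
    rw [div_le_iff₀ hε] at h4
    linarith
  rcases le_or_gt L m with hLm | hLm
  · have h1 : (L : ℝ) ≤ m := by exact_mod_cast hLm
    have h2 : (T : ℝ) / (T + 1) * L * Real.log q ≤ m * Real.log q := by
      apply mul_le_mul_of_nonneg_right _ hlq.le
      calc (T : ℝ) / (T + 1) * L ≤ 1 * L := mul_le_mul_of_nonneg_right hT1 (by linarith)
        _ ≤ m := by rw [one_mul]; exact h1
    have h3 : 0 ≤ ε * L * Real.log q := by positivity
    linarith
  have hlogb : ∀ l, Real.log ((q ^ (t l + L) : ℕ) : ℝ) = ((t l : ℝ) + L) * Real.log q := by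
    intro l
    push_cast
    rw [Real.log_pow]
    push_cast
    ring
  have hΛL : Λ ≤ L * Real.log q := by
    refine hΛ.trans ?_
    apply mul_le_mul_of_nonneg_right _ hlq.le
    calc (T : ℝ) / (T + 1) * L ≤ 1 * L := mul_le_mul_of_nonneg_right hT1 (by linarith)
      _ = L := one_mul _
  obtain ⟨m', hm', hfin⟩ := rel_meas T hT
    (fun l => ((A0 * a l : ℕ) : ℝ) / ((q ^ (t l + L) : ℕ) : ℝ)) q hq L m (ε1 * L) Λ
    (by positivity) hΛ
    (by
      intro Q hQ hQΛ p
      have hQR : (1 : ℝ) ≤ Q := by exact_mod_cast hQ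
      have hlQ : 0 ≤ Real.log Q := Real.log_nonneg hQR
      obtain ⟨l, hl⟩ := hn0 L hL1 a (fun l => q ^ (t l + L)) Q p
        { ha := ha
          hb := fun l => Nat.one_le_pow _ _ (by omega)
          hQ := hQ
          haS := haS
          hbS := fun l ℓ hℓ hd => hqS ℓ hℓ (hℓ.dvd_of_dvd_pow hd)
          haK := fun l => (haK l).trans (by nlinarith)
          hbK := fun l => by
            have h1 : ((q ^ (t l + L) : ℕ) : ℝ) ≤ q * (A0 * a l) := by exact_mod_cast hwin l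
            have haR : (1 : ℝ) ≤ a l := by exact_mod_cast ha l
            have h0 : (0 : ℝ) < ((q ^ (t l + L) : ℕ) : ℝ) := by positivity
            have h2 := Real.log_le_log h0 h1
            rw [Real.log_mul (by positivity) (by positivity),
              Real.log_mul (by positivity) (by positivity)] at h2
            have h3 := haK l
            nlinarith
          hQK := by nlinarith
          hg := fun l => by
            have h1 : ((q ^ (t l + L) : ℕ) : ℝ) ≤ q * (A0 * a l) := by exact_mod_cast hwin l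
            calc ((q ^ (t l + L) : ℕ) : ℝ) ≤ q * (A0 * a l) := h1
              _ = _ := by ring
          hne := fun l h => by
            apply hdvd Q hQ hQΛ l
            have h0 : (0 : ℝ) < ((q ^ (t l + L) : ℕ) : ℝ) := by positivity
            have h1 : (Q : ℝ) * A0 * a l = p l * ((q ^ (t l + L) : ℕ) : ℝ) := by
              field_simp at h
              linarith
            have h2 : ((Q * A0 * a l : ℕ) : ℤ) = p l * ((q ^ (t l + L) : ℕ) : ℤ) := by
              exact_mod_cast h1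
            have h3 : ((q ^ (t l + L) : ℕ) : ℤ) ∣ ((Q * A0 * a l : ℕ) : ℤ) := ⟨p l, by
              rw [h2]; ring⟩
            exact_mod_cast h3 }
        (((T : ℝ) - 1) / (T + 1) * L * Real.log q)
        (by
          intro l l' hll
          refine (hsep l l' hll).trans (le_of_eq ?_)
          rw [hlogb, hlogb]
          congr 1
          ring)
        (by
          have h1 : ((T : ℝ) - 1) / T * Real.log Q ≤
              ((T : ℝ) - 1) / T * ((T : ℝ) / (T + 1) * L * Real.log q) := by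
            apply mul_le_mul_of_nonneg_left (hQΛ.le.trans hΛ)
            exact div_nonneg (by linarith) (by linarith)
          refine h1.trans (le_of_eq ?_)
          field_simp)
      refine ⟨l, ?_⟩
      refine hl.le.trans (le_of_eq ?_)
      congr 2
      push_cast
      ring)
    (fun l i => ((A0 * a l / q ^ (t l + (L - 1 - i)) % q : ℕ) : ℤ))
    (fun l i hi => by rw [dig_win q (A0 * a l) (t l) L i hq hi])
    c hc0
    (fun l i hi => by
      rw [← hc l i hi]
      refine Finset.sum_congr rfl fun j _ => ?_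
      push_cast
      rfl)
  have h1 := herr m'
  have h2 : (m' : ℝ) ≤ L := by exact_mod_cast (by omega : m' ≤ L)
  have h3 : ε / 60 * (m' : ℝ) ≤ ε / 60 * L := mul_le_mul_of_nonneg_left h2 (by positivity)
  have h4 : (m + 15 * err m' + 1) * Real.log q + ε1 * L ≤ (m + ε * L) * Real.log q := by
    have h5 : ε1 * L = (ε / 4 * L) * Real.log q := by rw [hε1]; ring
    rw [h5, ← add_mul]
    apply mul_le_mul_of_nonneg_right _ hlq.le
    have h6 : 0 ≤ ε * L := by positivity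
    linarith
  exact hfin.trans h4

/-- a relation over a field of characteristic zero gives a relation over the rationals -/
lemma rat_rel (𝕜 : Type) [Field 𝕜] [CharZero 𝕜] (ι : Type) (m : ℕ) (s : ι → ℕ → ℚ)
    (c : ℕ → 𝕜) (hc0 : ∃ j ≤ m, c j ≠ 0)
    (hc : ∀ i, ∑ j ∈ range (m + 1), c j * ((s i j : ℚ) : 𝕜) = 0) :
    ∃ c' : ℕ → ℚ, (∃ j ≤ m, c' j ≠ 0) ∧ ∀ i, ∑ j ∈ range (m + 1), c' j * s i j = 0 := by
  obtain ⟨j0, hj0, hcj0⟩ := hc0
  obtain ⟨φ, hφ⟩ : ∃ φ : Module.Dual ℚ 𝕜, φ (c j0) ≠ 0 := by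
    by_contra h
    push Not at h
    exact hcj0 ((Module.forall_dual_apply_eq_zero_iff ℚ (c j0)).1 h)
  refine ⟨fun j => φ (c j), ⟨j0, hj0, hφ⟩, fun i => ?_⟩
  have h1 := congrArg φ (hc i)
  rw [map_zero, map_sum] at h1
  rw [← h1]
  refine Finset.sum_congr rfl fun j _ => ?_
  have h2 : c j * ((s i j : ℚ) : 𝕜) = (s i j) • c j := by
    rw [Algebra.smul_def, mul_comm]
    rfl
  rw [h2, map_smul, smul_eq_mul, mul_comm]

end Pool.Agent.Y928.SW
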