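import Pool.Agent.TH338.LG.Sst

/-!
# Simultaneous approximation to `S`-units of different sizes

By the subspace theorem over the rationals (project SST) the products of a fixed integer with
`S`-units of well separated sizes are not simultaneously approximable better than random numbers.
-/

set_option autoImplicit false

namespace Pool.Agent.Y928.SW

open Finset Filter Topology
open Pool.Agent.TH461.SST (Places Size Sol)

/-- the data of an approximation -/
structure Dat (S : Finset ℕ) (A0 : ℕ) (β K : ℝ) (T n : ℕ) (a b : Fin T → ℕ) (Q : ℕ)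
    (P : Fin T → ℤ) : Prop where
  ha : ∀ l, 1 ≤ a l
  hb : ∀ l, 1 ≤ b l
  hQ : 1 ≤ Q
  haS : ∀ l, ∀ ℓ : ℕ, ℓ.Prime → ℓ ∣ a l → ℓ ∈ S
  hbS : ∀ l, ∀ ℓ : ℕ, ℓ.Prime → ℓ ∣ b l → ℓ ∈ S
  haK : ∀ l, Real.log (a l) ≤ K * n
  hbK : ∀ l, Real.log (b l) ≤ K * n
  hQK : Real.log Q ≤ K * n
  hg : ∀ l, (b l : ℝ) ≤ β * a l
  hne : ∀ l, (Q : ℝ) * A0 * (a l / b l) - P l ≠ 0

/-- the common divisors -/
def H {T : ℕ} (a b : Fin T → ℕ) : Fin (T + 1) → ℕ :=
  Fin.cons (∏ l, a l) (fun l => (∏ l' ∈ univ.erase l, a l') * b l)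

lemma H_pos {T : ℕ} (a b : Fin T → ℕ) (ha : ∀ l, 1 ≤ a l) (hb : ∀ l, 1 ≤ b l)
    (i : Fin (T + 1)) : 1 ≤ H a b i := by
  refine Fin.cases ?_ (fun l => ?_) i
  · simp only [H, Fin.cons_zero]
    exact Finset.one_le_prod' (fun l _ => ha l) |> fun h => by simpa using h
  · simp only [H, Fin.cons_succ]
    exact Nat.mul_pos (Finset.prod_pos fun l' _ => ha l') (hb l)

lemma H_prime {T : ℕ} (S : Finset ℕ) (a b : Fin T → ℕ)
    (haS : ∀ l, ∀ ℓ : ℕ, ℓ.Prime → ℓ ∣ a l → ℓ ∈ S)
    (hbS : ∀ l, ∀ ℓ : ℕ, ℓ.Prime → ℓ ∣ b l → ℓ ∈ S) (i : Fin (T + 1)) (ℓ : ℕ) (hℓ : ℓ.Prime)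
    (hd : ℓ ∣ H a b i) : ℓ ∈ S := by
  revert hd
  refine Fin.cases (fun hd => ?_) (fun l hd => ?_) i
  · simp only [H, Fin.cons_zero] at hd
    obtain ⟨l, _, hl⟩ := (hℓ.prime.dvd_finsetProd_iff a).1 hd
    exact haS l ℓ hℓ hl
  · simp only [H, Fin.cons_succ] at hd
    rcases hℓ.dvd_mul.1 hd with h | h
    · obtain ⟨l', _, hl'⟩ := (hℓ.prime.dvd_finsetProd_iff a).1 h
      exact haS l' ℓ hℓ hl'
    · exact hbS l ℓ hℓ h

lemma H_succ {T : ℕ} (a b : Fin T → ℕ) (ha : ∀ l, 1 ≤ a l) (l : Fin T) :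
    (H a b l.succ : ℝ) = (H a b 0 : ℝ) * (b l / a l) := by
  simp only [H, Fin.cons_succ, Fin.cons_zero]
  have h1 : ∏ l, a l = a l * ∏ l' ∈ univ.erase l, a l' := (Finset.mul_prod_erase univ a (mem_univ l)).symm
  rw [h1]
  have h2 : (0 : ℝ) < a l := by exact_mod_cast ha l
  push_cast
  field_simp

lemma H_log {T : ℕ} (a b : Fin T → ℕ) (ha : ∀ l, 1 ≤ a l) (hb : ∀ l, 1 ≤ b l) (X : ℝ)
    (haK : ∀ l, Real.log (a l) ≤ X) (hbK : ∀ l, Real.log (b l) ≤ X) (i : Fin (T + 1)) :
    Real.log (H a b i) ≤ (T : ℝ) * X := by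
  refine Fin.cases ?_ (fun l => ?_) i
  · simp only [H, Fin.cons_zero]
    push_cast
    rw [Real.log_prod (fun l _ => by have := ha l; positivity)]
    calc ∑ l, Real.log (a l) ≤ ∑ _l : Fin T, X := Finset.sum_le_sum fun l _ => haK l
      _ = _ := by simp
  · simp only [H, Fin.cons_succ]
    have h1 : (0 : ℝ) < b l := by exact_mod_cast hb l
    have h2 : (0 : ℝ) < ∏ l' ∈ univ.erase l, (a l' : ℝ) :=
      Finset.prod_pos fun l' _ => by exact_mod_cast ha l'
    push_cast
    rw [Real.log_mul h2.ne' h1.ne', Real.log_prod (fun l _ => by have := ha l; positivity)]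
    calc ∑ l' ∈ univ.erase l, Real.log (a l') + Real.log (b l)
        ≤ ∑ _l' ∈ univ.erase l, X + X :=
          add_le_add (Finset.sum_le_sum fun l' _ => haK l') (hbK l)
      _ = ∑ _l : Fin T, X := by
          rw [add_comm, Finset.add_sum_erase univ (fun _ => X) (mem_univ l)]
      _ = _ := by simp

/-- the logarithm of an `S`-unit -/
lemma log_fact (S : Finset ℕ) (n : ℕ) (hS : ∀ ℓ : ℕ, ℓ.Prime → ℓ ∣ n → ℓ ∈ S) :
    ∑ v : Fin S.card, (n.factorization (S.equivFin.symm v : ℕ) : ℝ) *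
      Real.log ((S.equivFin.symm v : ℕ) : ℝ) = Real.log n := by
  rw [Equiv.sum_comp S.equivFin.symm
    (fun p : S => (n.factorization (p : ℕ) : ℝ) * Real.log ((p : ℕ) : ℝ)),
    Finset.sum_coe_sort S (fun p => (n.factorization p : ℝ) * Real.log (p : ℝ)),
    Real.log_nat_eq_sum_factorization, Finsupp.sum]
  symm
  apply Finset.sum_subset
  · intro p hp
    rw [Nat.support_factorization, Nat.mem_primeFactors] at hp
    exact hS p hp.1 hp.2.1
  · intro p _ hp
    rw [Finsupp.notMem_support_iff] at hp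
    rw [hp]
    simp

/-- the forms at the real place -/
def M0 (A0 T : ℕ) : Matrix (Fin (T + 1)) (Fin (T + 1)) ℤ :=
  fun i j => if i = 0 then (if j = 0 then 1 else 0) else
    (if j = 0 then (A0 : ℤ) else if j = i then -1 else 0)

lemma M0_det (A0 T : ℕ) : (M0 A0 T).det ≠ 0 := by
  rw [Matrix.det_of_isLowerTriangular]
  · rw [Finset.prod_ne_zero_iff]
    intro i _
    unfold M0
    by_cases hi : i = 0
    · simp [hi]
    · simp [hi]
  · intro i j hij
    have hij' : i < j := hij
    unfold M0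
    have hj : j ≠ 0 := by
      rintro rfl
      exact absurd hij' (Fin.not_lt_zero i)
    by_cases hi : i = 0
    · simp [hi, hj]
    · simp [hi, hj, hij'.ne']

lemma M0_zero (A0 T : ℕ) (x : Fin (T + 1) → ℤ) : ∑ j, M0 A0 T 0 j * x j = x 0 := by
  unfold M0
  simp

lemma M0_succ (A0 T : ℕ) (x : Fin (T + 1) → ℤ) (l : Fin T) :
    ∑ j, M0 A0 T l.succ j * x j = A0 * x 0 - x l.succ := by
  rw [Fin.sum_univ_succ]
  unfold M0
  have h0 : (l.succ : Fin (T + 1)) ≠ 0 := Fin.succ_ne_zero l
  simp only [h0, if_false, if_true]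
  have h1 : ∑ i : Fin T, (if (i.succ : Fin (T + 1)) = 0 then (A0 : ℤ) else
      if (i.succ : Fin (T + 1)) = l.succ then -1 else 0) * x i.succ = -x l.succ := by
    rw [Finset.sum_eq_single l]
    · simp
    · intro i _ hi
      have h2 : (i.succ : Fin (T + 1)) ≠ 0 := Fin.succ_ne_zero i
      have h3 : (i.succ : Fin (T + 1)) ≠ l.succ := fun h => hi (Fin.succ_injective _ h)
      simp [h3]
    · intro h; exact absurd (mem_univ l) h
  rw [h1]
  ring

/-- a sequence of very good approximations gives a linear relation between the errors -/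
theorem core (S : Finset ℕ) (hS : ∀ ℓ ∈ S, ℓ.Prime) (A0 : ℕ) (β K ε : ℝ) (hK : 0 < K)
    (hε : 0 < ε) (T : ℕ) (hT : 1 ≤ T) (N : ℕ → ℕ) (hN : Tendsto N atTop atTop)
    (a b : ℕ → Fin T → ℕ) (Q : ℕ → ℕ) (P : ℕ → Fin T → ℤ)
    (hD : ∀ t, Dat S A0 β K T (N t) (a t) (b t) (Q t) (P t))
    (hsm : ∀ t l, |(Q t : ℝ) * A0 * (a t l / b t l) - P t l| ≤
      (Q t : ℝ) ^ (-(1 / T : ℝ)) * Real.exp (-(ε * N t))) :
    ∃ y : Fin T → ℤ, y ≠ 0 ∧ ∃ᶠ t in atTop,
      ∑ l, (y l : ℝ) * (((Q t : ℝ) * A0 * (a t l / b t l) - P t l) * (b t l / a t l)) = 0 := by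
  have hTR : (1 : ℝ) ≤ T := by exact_mod_cast hT
  set e : ℕ → Fin S.card → Fin (T + 1) → ℕ := fun t v i =>
    (H (a t) (b t) i).factorization (S.equivFin.symm v : ℕ) with he
  set A : ℕ → Fin (T + 1) → ℝ := fun t i => (H (a t) (b t) i : ℝ) *
    (Fin.cons (Q t : ℝ) (fun _ : Fin T => (Q t : ℝ) ^ (-(1 / T : ℝ)) * Real.exp (-(ε * N t))) :
      Fin (T + 1) → ℝ) i with hA
  set x : ℕ → Fin (T + 1) → ℤ := fun t i => (H (a t) (b t) i : ℤ) *
    (Fin.cons (Q t : ℤ) (P t) : Fin (T + 1) → ℤ) i with hx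
  have hHp : ∀ t i, 1 ≤ H (a t) (b t) i := fun t i => H_pos _ _ (hD t).ha (hD t).hb i
  have hHR : ∀ t i, (1 : ℝ) ≤ H (a t) (b t) i := fun t i => by exact_mod_cast hHp t i
  have hlf : ∀ t i, ∑ v : Fin S.card, (e t v i : ℝ) *
      Real.log ((S.equivFin.symm v : ℕ) : ℝ) = Real.log (H (a t) (b t) i) := fun t i =>
    log_fact S _ (H_prime S _ _ (hD t).haS (hD t).hbS i)
  have hlH : ∀ t i, Real.log (H (a t) (b t) i) ≤ (T : ℝ) * (K * N t) := fun t i =>
    H_log _ _ (hD t).ha (hD t).hb _ (hD t).haK (hD t).hbK i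
  have hlH0 : ∀ t i, 0 ≤ Real.log (H (a t) (b t) i) := fun t i => Real.log_nonneg (hHR t i)
  have hQR : ∀ t, (1 : ℝ) ≤ Q t := fun t => by exact_mod_cast (hD t).hQ
  have hlQ : ∀ t, 0 ≤ Real.log (Q t) := fun t => Real.log_nonneg (hQR t)
  have hvp : ∀ v : Fin S.card, (S.equivFin.symm v : ℕ).Prime := fun v =>
    hS _ (S.equivFin.symm v).2
  have hlA0 : ∀ t, Real.log (A t 0) = Real.log (H (a t) (b t) 0) + Real.log (Q t) := by
    intro t
    have h1 := hHR t 0
    have h2 := hQR t
    rw [hA]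
    simp only [Fin.cons_zero]
    rw [Real.log_mul (by positivity) (by positivity)]
  have hlAs : ∀ t (l : Fin T), Real.log (A t l.succ) = Real.log (H (a t) (b t) l.succ) +
      (-(1 / T : ℝ) * Real.log (Q t) - ε * N t) := by
    intro t l
    have h1 := hHR t l.succ
    have h2 := hQR t
    rw [hA]
    simp only [Fin.cons_succ]
    rw [Real.log_mul (by positivity) (by positivity), Real.log_mul (by positivity) (by positivity),
      Real.log_rpow (by positivity), Real.log_exp]
    ring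
  have hN0 : ∀ t, (0 : ℝ) ≤ N t := fun t => Nat.cast_nonneg _
  have hKN : ∀ t, 0 ≤ K * N t := fun t => mul_nonneg hK.le (hN0 t)
  have hsize : ∀ t, Size (fun v : Fin S.card => (S.equivFin.symm v : ℕ))
      (((T : ℝ) + 1) * K + ε + 1) (T * ε) (N t) (e t) (A t) := by
    intro t
    have h1T : 1 / (T : ℝ) ≤ 1 := by rw [div_le_one (by linarith)]; exact hTR
    have h1T0 : 0 ≤ 1 / (T : ℝ) := by positivity
    have hQK := (hD t).hQK
    have hlq := hlQ t
    have hε0 : 0 ≤ ε * N t := mul_nonneg hε.le (hN0 t)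
    refine ⟨?_, ?_, ?_, ?_⟩
    · intro v i
      have h1 : (e t v i : ℝ) * Real.log ((S.equivFin.symm v : ℕ) : ℝ) ≤
          Real.log (H (a t) (b t) i) := by
        rw [← hlf t i]
        exact Finset.single_le_sum (f := fun v : Fin S.card => (e t v i : ℝ) *
          Real.log ((S.equivFin.symm v : ℕ) : ℝ)) (fun v _ => mul_nonneg (Nat.cast_nonneg _)
          (Real.log_natCast_nonneg _)) (mem_univ v)
      have h2 := hlH t i
      have h3 := hKN t
      have h4 := hN0 t
      nlinarith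
    · intro i
      have h1 := hHR t i
      have h2 := hQR t
      rw [hA]
      refine Fin.cases ?_ (fun l => ?_) i
      · simp only [Fin.cons_zero]
        have := hHR t 0
        positivity
      · simp only [Fin.cons_succ]
        have := hHR t l.succ
        positivity
    · intro i
      refine Fin.cases ?_ (fun l => ?_) i
      · rw [hlA0, abs_of_nonneg (add_nonneg (hlH0 t 0) hlq)]
        have h2 := hlH t 0
        have h3 := hKN t
        have h4 := hN0 t
        nlinarith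
      · rw [hlAs, abs_le]
        have h2 := hlH t l.succ
        have h2' := hlH0 t l.succ
        have h3 := hKN t
        have h4 := hN0 t
        have h5 : 1 / (T : ℝ) * Real.log (Q t) ≤ K * N t := by
          calc 1 / (T : ℝ) * Real.log (Q t) ≤ 1 * Real.log (Q t) :=
                mul_le_mul_of_nonneg_right h1T hlq
            _ ≤ _ := by rw [one_mul]; exact hQK
        have h6 : 0 ≤ 1 / (T : ℝ) * Real.log (Q t) := mul_nonneg h1T0 hlq
        have h7 : 0 ≤ (T : ℝ) * (K * N t) := by positivity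
        constructor
        · nlinarith
        · nlinarith
    · rw [Fin.sum_univ_succ, hlA0]
      simp only [hlAs]
      rw [Finset.sum_add_distrib, Finset.sum_const, Finset.card_univ, Fintype.card_fin,
        nsmul_eq_mul, Finset.sum_comm]
      simp only [hlf]
      rw [Fin.sum_univ_succ]
      have h1 : (T : ℝ) * (-(1 / T : ℝ) * Real.log (Q t) - ε * N t) =
          -Real.log (Q t) - T * ε * N t := by
        field_simp
      rw [h1]
      linarith
  have hplaces : Places (M0 A0 T) (fun _ : Fin S.card => (1 : Matrix (Fin (T + 1)) (Fin (T + 1)) ℤ))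
      (fun v : Fin S.card => (S.equivFin.symm v : ℕ)) := by
    refine ⟨M0_det A0 T, fun v => by simp, fun v => (hvp v).two_le, ?_⟩
    intro v v' hvv
    rw [Nat.coprime_primes (hvp v) (hvp v')]
    intro h
    exact hvv (S.equivFin.symm.injective (Subtype.ext h))
  have hform : ∀ t (l : Fin T), ((A0 * x t 0 - x t l.succ : ℤ) : ℝ) =
      (H (a t) (b t) l.succ : ℝ) * ((Q t : ℝ) * A0 * (a t l / b t l) - P t l) := by
    intro t l
    rw [hx]
    simp only [Fin.cons_zero, Fin.cons_succ]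
    push_cast
    rw [H_succ _ _ (hD t).ha l]
    have h1 : (0 : ℝ) < a t l := by exact_mod_cast (hD t).ha l
    have h2 : (0 : ℝ) < b t l := by exact_mod_cast (hD t).hb l
    field_simp
  obtain ⟨y, hy0, hy⟩ := Pool.Agent.TH338.LG.subspace (T + 1) S.card (by omega) (M0 A0 T)
    (fun _ => 1) (fun v => (S.equivFin.symm v : ℕ)) hplaces (((T : ℝ) + 1) * K + ε + 1) (T * ε)
    (by have : 0 ≤ ((T : ℝ) + 1) * K := by positivity
        linarith) (by positivity) (fun t => (N t : ℝ))
    (tendsto_natCast_atTop_atTop.comp hN) e A hsize x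
    (by
      intro t h
      have h1 := congrFun h 0
      rw [hx] at h1
      simp only [Fin.cons_zero, Pi.zero_apply, mul_eq_zero, Nat.cast_eq_zero] at h1
      have h2 := hHp t 0
      have h3 := (hD t).hQ
      omega)
    (by
      intro t
      constructor
      · intro i
        refine Fin.cases ?_ (fun l => ?_) i
        · rw [M0_zero, hx, hA]
          simp only [Fin.cons_zero]
          push_cast
          rw [abs_of_nonneg (by positivity)]
        · rw [M0_succ, hform, hA]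
          simp only [Fin.cons_succ]
          rw [abs_mul, abs_of_nonneg (Nat.cast_nonneg _)]
          exact mul_le_mul_of_nonneg_left (hsm t l) (Nat.cast_nonneg _)
      · intro v i
        have h1 : ∑ j, (1 : Matrix (Fin (T + 1)) (Fin (T + 1)) ℤ) i j * x t j = x t i := by
          rw [Finset.sum_eq_single i]
          · simp
          · intro j _ hj
            rw [Matrix.one_apply_ne hj.symm, zero_mul]
          · intro h; exact absurd (mem_univ i) h
        rw [h1, hx]
        apply Dvd.dvd.mul_right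
        have h2 := Nat.ordProj_dvd (H (a t) (b t) i) (S.equivFin.symm v : ℕ)
        exact_mod_cast h2)
  -- consequences
  have hrel : ∀ t, ∑ l, y l * x t l = 0 →
      (((y 0 + A0 * ∑ l : Fin T, y l.succ) * Q t : ℤ) : ℝ) =
      ∑ l, (y l.succ : ℝ) * (((Q t : ℝ) * A0 * (a t l / b t l) - P t l) * (b t l / a t l)) := by
    intro t ht
    have h0 : (0 : ℝ) < H (a t) (b t) 0 := by have := hHR t 0; linarith
    have h1 : ((∑ l, y l * x t l : ℤ) : ℝ) = 0 := by rw [ht]; simp
    rw [Fin.sum_univ_succ, hx] at h1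
    simp only [Fin.cons_zero, Fin.cons_succ] at h1
    push_cast at h1
    have h2 : ∀ l : Fin T, (y l.succ : ℝ) * ((H (a t) (b t) l.succ : ℝ) * (P t l : ℝ)) =
        (H (a t) (b t) 0 : ℝ) * ((y l.succ : ℝ) * (Q t * A0) - (y l.succ : ℝ) *
          (((Q t : ℝ) * A0 * (a t l / b t l) - P t l) * (b t l / a t l))) := by
      intro l
      rw [H_succ _ _ (hD t).ha l]
      have h1 : (0 : ℝ) < a t l := by exact_mod_cast (hD t).ha l
      have h2 : (0 : ℝ) < b t l := by exact_mod_cast (hD t).hb l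
      field_simp
      ring
    simp only [h2] at h1
    rw [← Finset.mul_sum, Finset.sum_sub_distrib, ← Finset.sum_mul] at h1
    have h3 : (H (a t) (b t) 0 : ℝ) * (((y 0 + A0 * ∑ l : Fin T, y l.succ) * Q t : ℤ) : ℝ) =
        (H (a t) (b t) 0 : ℝ) * ∑ l, (y l.succ : ℝ) *
          (((Q t : ℝ) * A0 * (a t l / b t l) - P t l) * (b t l / a t l)) := by
      push_cast
      linarith
    exact mul_left_cancel₀ h0.ne' h3
  -- the right hand side is small
  obtain ⟨Y, hY⟩ : ∃ Y : ℝ, Y = ∑ l : Fin T, |(y l.succ : ℝ)| := ⟨_, rfl⟩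
  have hY0 : 0 ≤ Y := by rw [hY]; exact Finset.sum_nonneg fun _ _ => abs_nonneg _
  have hlim : ∀ᶠ t in atTop, Y * |β| * Real.exp (-(ε * (N t : ℝ))) < 1 := by
    have h1 : Tendsto (fun t : ℕ => Y * |β| * Real.exp (-(ε * (N t : ℝ)))) atTop (𝓝 (Y * |β| * 0)) := by
      apply Tendsto.const_mul
      apply Real.tendsto_exp_neg_atTop_nhds_zero.comp
      exact Tendsto.const_mul_atTop hε (tendsto_natCast_atTop_atTop.comp hN)
    rw [mul_zero] at h1
    exact h1.eventually (gt_mem_nhds one_pos)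
  have hsmall : ∀ t, |∑ l, (y l.succ : ℝ) * (((Q t : ℝ) * A0 * (a t l / b t l) - P t l) *
      (b t l / a t l))| ≤ Y * |β| * Real.exp (-(ε * (N t : ℝ))) := by
    intro t
    calc |∑ l, (y l.succ : ℝ) * (((Q t : ℝ) * A0 * (a t l / b t l) - P t l) *
          (b t l / a t l))| ≤ ∑ l, |(y l.succ : ℝ) * (((Q t : ℝ) * A0 * (a t l / b t l) - P t l) *
          (b t l / a t l))| := Finset.abs_sum_le_sum_abs _ _
      _ ≤ ∑ l : Fin T, |(y l.succ : ℝ)| * (|β| * Real.exp (-(ε * (N t : ℝ)))) := by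
          apply Finset.sum_le_sum
          intro l _
          rw [abs_mul, abs_mul]
          apply mul_le_mul_of_nonneg_left _ (abs_nonneg _)
          have h1 : (0 : ℝ) < a t l := by exact_mod_cast (hD t).ha l
          have h2 : (0 : ℝ) < b t l := by exact_mod_cast (hD t).hb l
          have h3 : |(b t l : ℝ) / a t l| ≤ |β| := by
            rw [abs_of_pos (by positivity), div_le_iff₀ h1]
            exact ((hD t).hg l).trans (mul_le_mul_of_nonneg_right (le_abs_self β) h1.le)
          have h4 : |(Q t : ℝ) * A0 * (a t l / b t l) - P t l| ≤ Real.exp (-(ε * (N t : ℝ))) := by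
            refine (hsm t l).trans ?_
            have h5 : (Q t : ℝ) ^ (-(1 / T : ℝ)) ≤ 1 :=
              Real.rpow_le_one_of_one_le_of_nonpos (hQR t) (by
                rw [neg_nonpos]; positivity)
            calc (Q t : ℝ) ^ (-(1 / T : ℝ)) * Real.exp (-(ε * N t)) ≤ 1 * Real.exp (-(ε * N t)) :=
                  mul_le_mul_of_nonneg_right h5 (Real.exp_pos _).le
              _ = _ := one_mul _
          rw [mul_comm |β|]
          exact mul_le_mul h4 h3 (abs_nonneg _) (Real.exp_pos _).le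
      _ = _ := by rw [hY, ← Finset.sum_mul]; ring
  have hzero : ∀ t, ∑ l, y l * x t l = 0 → Y * |β| * Real.exp (-(ε * (N t : ℝ))) < 1 →
      y 0 + A0 * ∑ l : Fin T, y l.succ = 0 ∧
      ∑ l, (y l.succ : ℝ) * (((Q t : ℝ) * A0 * (a t l / b t l) - P t l) * (b t l / a t l)) = 0 := by
    intro t h1 h2
    have h3 := hrel t h1
    have h4 := hsmall t
    rw [← h3] at h4 ⊢
    have h5 : |(y 0 + A0 * ∑ l : Fin T, y l.succ) * (Q t : ℤ)| < 1 := by
      have h6 := lt_of_le_of_lt h4 h2
      rw [← Int.cast_abs] at h6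
      exact_mod_cast h6
    have h6 := Int.abs_lt_one_iff.1 h5
    constructor
    · rcases mul_eq_zero.1 h6 with h | h
      · exact h
      · have := (hD t).hQ
        exfalso
        have h7 : (Q t : ℤ) = 0 := h
        omega
    · rw [h6]; simp
  refine ⟨fun l => y l.succ, ?_, ?_⟩
  · intro h
    obtain ⟨t, ht1, ht2⟩ := (hy.and_eventually hlim).exists
    have h1 := (hzero t ht1 ht2).1
    have h2 : ∀ l : Fin T, y l.succ = 0 := fun l => congrFun h l
    simp only [h2, Finset.sum_const_zero, mul_zero, add_zero] at h1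
    apply hy0
    funext i
    refine Fin.cases h1 (fun l => h2 l) i
  · exact (hy.and_eventually hlim).mono fun t ht => (hzero t ht.1 ht.2).2

end Pool.Agent.Y928.SW
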