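import Pool.Agent.Y928.SW.Core

/-!
# The simultaneous measure for `S`-units of different sizes
-/

set_option autoImplicit false

namespace Pool.Agent.Y928.SW

open Finset Filter Topology

/-- one number -/
theorem meas_one (S : Finset ℕ) (hS : ∀ ℓ ∈ S, ℓ.Prime) (A0 : ℕ) (β K ε : ℝ) (hK : 0 < K)
    (hε : 0 < ε) : ∃ n0 : ℕ, ∀ n, n0 ≤ n → ∀ (a b : Fin 1 → ℕ) (Q : ℕ) (P : Fin 1 → ℤ),
      Dat S A0 β K 1 n a b Q P →
      (Q : ℝ) ^ (-(1 : ℝ)) * Real.exp (-(ε * n)) < |(Q : ℝ) * A0 * (a 0 / b 0) - P 0| := by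
  by_contra hcon
  push Not at hcon
  choose N hN a b Q P hD hsm using hcon
  obtain ⟨y, hy0, hy⟩ := core S hS A0 β K ε hK hε 1 le_rfl N
    (tendsto_atTop_mono hN tendsto_id) a b Q P hD (by
      intro t l
      rw [Subsingleton.elim l 0]
      simpa using hsm t)
  obtain ⟨t, ht⟩ := hy.exists
  rw [Fin.sum_univ_one] at ht
  have h1 : (0 : ℝ) < a t 0 := by exact_mod_cast (hD t).ha 0
  have h2 : (0 : ℝ) < b t 0 := by exact_mod_cast (hD t).hb 0
  have h3 : (b t 0 : ℝ) / a t 0 ≠ 0 := by positivity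
  have h4 := (hD t).hne 0
  rcases mul_eq_zero.1 ht with h | h
  · apply hy0
    funext i
    rw [Subsingleton.elim i 0]
    exact_mod_cast h
  · rcases mul_eq_zero.1 h with h | h
    · exact h4 h
    · exact h3 h

/-- several numbers -/
theorem meas (S : Finset ℕ) (hS : ∀ ℓ ∈ S, ℓ.Prime) (A0 : ℕ) (β K ε : ℝ) (hK : 0 < K)
    (hε : 0 < ε) (T : ℕ) (hT : 1 ≤ T) :
    ∃ n0 : ℕ, ∀ n, n0 ≤ n → ∀ (a b : Fin T → ℕ) (Q : ℕ) (P : Fin T → ℤ),
      Dat S A0 β K T n a b Q P → ∀ D : ℝ,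
      (∀ l l', l ≠ l' → D ≤ |(Real.log (a l) - Real.log (b l)) -
        (Real.log (a l') - Real.log (b l'))|) →
      ((T : ℝ) - 1) / T * Real.log Q ≤ D →
      ∃ l, (Q : ℝ) ^ (-(1 / T : ℝ)) * Real.exp (-(ε * n)) <
        |(Q : ℝ) * A0 * (a l / b l) - P l| := by
  obtain ⟨n1, hn1⟩ := meas_one S hS A0 β K (ε / 2) hK (by linarith)
  by_contra hcon
  push Not at hcon
  choose N hN a b Q P hD D hsep hDQ hsm using hcon
  have hNt : Tendsto N atTop atTop := tendsto_atTop_mono hN tendsto_id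
  obtain ⟨y, hy0, hy⟩ := core S hS A0 β K ε hK hε T hT N hNt a b Q P hD (fun t l => hsm t l)
  have hTR : (1 : ℝ) ≤ T := by exact_mod_cast hT
  obtain ⟨Y, hY⟩ : ∃ Y : ℝ, Y = ∑ l : Fin T, |(y l : ℝ)| := ⟨_, rfl⟩
  have hY0 : 0 ≤ Y := by rw [hY]; exact Finset.sum_nonneg fun _ _ => abs_nonneg _
  have hlim : ∀ᶠ t in atTop, Y * Real.exp (-(ε / 2 * (N t : ℝ))) < 1 := by
    have h1 : Tendsto (fun t : ℕ => Y * Real.exp (-(ε / 2 * (N t : ℝ)))) atTop (𝓝 (Y * 0)) := by
      apply Tendsto.const_mul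
      apply Real.tendsto_exp_neg_atTop_nhds_zero.comp
      exact Tendsto.const_mul_atTop (by linarith) (tendsto_natCast_atTop_atTop.comp hNt)
    rw [mul_zero] at h1
    exact h1.eventually (gt_mem_nhds one_pos)
  obtain ⟨t, ht, ht1, ht2⟩ := (hy.and_eventually
    (hlim.and (hNt.eventually (eventually_ge_atTop n1)))).exists
  have ha : ∀ l, (0 : ℝ) < a t l := fun l => by exact_mod_cast (hD t).ha l
  have hb : ∀ l, (0 : ℝ) < b t l := fun l => by exact_mod_cast (hD t).hb l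
  have hQ : (1 : ℝ) ≤ Q t := by exact_mod_cast (hD t).hQ
  -- the smallest number of the relation
  obtain ⟨l0, hl0, hmax⟩ := Finset.exists_max_image (univ.filter fun l => y l ≠ 0)
    (fun l => (b t l : ℝ) / a t l) (by
      by_contra h
      rw [Finset.not_nonempty_iff_eq_empty, Finset.filter_eq_empty_iff] at h
      apply hy0
      funext l
      have := h (mem_univ l)
      push Not at this
      exact this)
  rw [mem_filter] at hl0
  have hδ0 := hn1 (N t) ht2 (fun _ => a t l0) (fun _ => b t l0) (Q t) (fun _ => P t l0)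
    ⟨fun _ => (hD t).ha l0, fun _ => (hD t).hb l0, (hD t).hQ, fun _ => (hD t).haS l0,
      fun _ => (hD t).hbS l0, fun _ => (hD t).haK l0, fun _ => (hD t).hbK l0, (hD t).hQK,
      fun _ => (hD t).hg l0, fun _ => (hD t).hne l0⟩
  set δ : Fin T → ℝ := fun l => (Q t : ℝ) * A0 * (a t l / b t l) - P t l with hδ
  have hδ0' : (Q t : ℝ) ^ (-(1 : ℝ)) * Real.exp (-(ε / 2 * (N t))) < |δ l0| := hδ0
  obtain ⟨B, hB⟩ : ∃ B : ℝ, B = (Q t : ℝ) ^ (-(1 / T : ℝ)) * Real.exp (-(ε * N t)) := ⟨_, rfl⟩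
  have hB0 : 0 < B := by rw [hB]; positivity
  have hδB : ∀ l, |δ l| ≤ B := by rw [hB]; exact fun l => hsm t l
  have hexp : Real.exp (-D t) ≤ (Q t : ℝ) ^ (-(((T : ℝ) - 1) / T)) := by
    rw [Real.rpow_def_of_pos (by linarith)]
    apply Real.exp_le_exp.2
    have := hDQ t
    linarith
  have hterm : ∀ l, l ≠ l0 → |(y l : ℝ) * (δ l * (b t l / a t l))| ≤
      |(y l : ℝ)| * (B * Real.exp (-D t) * (b t l0 / a t l0)) := by
    intro l hl
    rw [abs_mul]
    apply le_of_eq_of_le rfl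
    rcases eq_or_ne (y l) 0 with h | h
    · simp [h]
    apply mul_le_mul_of_nonneg_left _ (abs_nonneg _)
    rw [abs_mul, abs_of_pos (div_pos (hb l) (ha l)), mul_assoc]
    apply mul_le_mul (hδB l) _ (div_pos (hb l) (ha l)).le hB0.le
    have h1 := hmax l (by rw [mem_filter]; exact ⟨mem_univ _, h⟩)
    have h2 := Real.log_le_log (div_pos (hb l) (ha l)) h1
    rw [Real.log_div (hb l).ne' (ha l).ne', Real.log_div (hb l0).ne' (ha l0).ne'] at h2
    have h3 := hsep t l l0 hl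
    rw [abs_of_nonneg (by linarith)] at h3
    rw [← Real.log_le_log_iff (div_pos (hb l) (ha l))
      (mul_pos (Real.exp_pos _) (div_pos (hb l0) (ha l0))),
      Real.log_mul (Real.exp_pos _).ne' (div_pos (hb l0) (ha l0)).ne', Real.log_exp,
      Real.log_div (hb l).ne' (ha l).ne', Real.log_div (hb l0).ne' (ha l0).ne']
    linarith
  have hsum : |(y l0 : ℝ) * (δ l0 * (b t l0 / a t l0))| ≤
      Y * (B * Real.exp (-D t) * (b t l0 / a t l0)) := by
    have h1 : (y l0 : ℝ) * (δ l0 * (b t l0 / a t l0)) =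
        -∑ l ∈ univ.erase l0, (y l : ℝ) * (δ l * (b t l / a t l)) := by
      have h2 := Finset.add_sum_erase univ (fun l => (y l : ℝ) * (δ l * (b t l / a t l)))
        (mem_univ l0)
      have h3 : ∑ l, (y l : ℝ) * (δ l * (b t l / a t l)) = 0 := ht
      rw [h3] at h2
      linarith
    rw [h1, abs_neg]
    calc |∑ l ∈ univ.erase l0, (y l : ℝ) * (δ l * (b t l / a t l))|
        ≤ ∑ l ∈ univ.erase l0, |(y l : ℝ) * (δ l * (b t l / a t l))| :=
          Finset.abs_sum_le_sum_abs _ _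
      _ ≤ ∑ l ∈ univ.erase l0, |(y l : ℝ)| * (B * Real.exp (-D t) * (b t l0 / a t l0)) :=
          Finset.sum_le_sum fun l hl => hterm l (Finset.ne_of_mem_erase hl)
      _ ≤ ∑ l, |(y l : ℝ)| * (B * Real.exp (-D t) * (b t l0 / a t l0)) := by
          apply Finset.sum_le_sum_of_subset_of_nonneg (Finset.erase_subset _ _)
          intro l _ _
          have := div_pos (hb l0) (ha l0)
          positivity
      _ = _ := by rw [hY, Finset.sum_mul]
  have hy1 : (1 : ℝ) ≤ |(y l0 : ℝ)| := by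
    rw [← Int.cast_abs]
    exact_mod_cast Int.one_le_abs hl0.2
  have hfin : |δ l0| ≤ Y * (B * Real.exp (-D t)) := by
    have h1 : |δ l0| * (b t l0 / a t l0) ≤ Y * (B * Real.exp (-D t)) * (b t l0 / a t l0) := by
      calc |δ l0| * (b t l0 / a t l0) ≤ |(y l0 : ℝ)| * (|δ l0| * (b t l0 / a t l0)) := by
            have : 0 ≤ |δ l0| * ((b t l0 : ℝ) / a t l0) :=
              mul_nonneg (abs_nonneg _) (div_pos (hb l0) (ha l0)).le
            nlinarith
        _ = |(y l0 : ℝ) * (δ l0 * (b t l0 / a t l0))| := by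
            rw [abs_mul, abs_mul, abs_of_pos (div_pos (hb l0) (ha l0))]
        _ ≤ _ := hsum
        _ = _ := by ring
    exact le_of_mul_le_mul_right h1 (div_pos (hb l0) (ha l0))
  have hBD : B * Real.exp (-D t) ≤ (Q t : ℝ) ^ (-(1 : ℝ)) * Real.exp (-(ε * N t)) := by
    calc B * Real.exp (-D t) ≤ B * (Q t : ℝ) ^ (-(((T : ℝ) - 1) / T)) :=
          mul_le_mul_of_nonneg_left hexp hB0.le
      _ = ((Q t : ℝ) ^ (-(1 / T : ℝ)) * (Q t : ℝ) ^ (-(((T : ℝ) - 1) / T))) *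
          Real.exp (-(ε * N t)) := by rw [hB]; ring
      _ = _ := by
          rw [← Real.rpow_add (by linarith)]
          congr 2
          field_simp
          ring
  have hq0 : 0 < (Q t : ℝ) ^ (-(1 : ℝ)) := by positivity
  have h1 : (Q t : ℝ) ^ (-(1 : ℝ)) * Real.exp (-(ε / 2 * (N t))) <
      (Q t : ℝ) ^ (-(1 : ℝ)) * (Y * Real.exp (-(ε * N t))) := by
    calc _ < |δ l0| := hδ0'
      _ ≤ Y * (B * Real.exp (-D t)) := hfin
      _ ≤ Y * ((Q t : ℝ) ^ (-(1 : ℝ)) * Real.exp (-(ε * N t))) :=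
          mul_le_mul_of_nonneg_left hBD hY0
      _ = _ := by ring
  have h2 := lt_of_mul_lt_mul_left h1 hq0.le
  have h3 : Real.exp (-(ε * N t)) = Real.exp (-(ε / 2 * (N t))) * Real.exp (-(ε / 2 * (N t))) := by
    rw [← Real.exp_add]
    congr 1
    ring
  have h4 : 0 < Real.exp (-(ε / 2 * (N t : ℝ))) := Real.exp_pos _
  rw [h3] at h2
  nlinarith

end Pool.Agent.Y928.SW
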